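import Pool.Agent.H38.Tre.Depth

namespace Pool.Agent.Results.MP_e7ed3f_nt.Upper

open H38Tre

theorem result : ∃ C : ℝ, ∀ a : ℤ, ∀ k : ℕ, {n : ℤ | 1 ≤ n ∧ T3^[k] n = a}.Finite ∧
    (Set.ncard {n : ℤ | 1 ≤ n ∧ T3^[k] n = a} : ℝ) ≤ C * (133522 / 100000 : ℝ) ^ k :=
  upper_main (fun n => 1 ≤ n)

end Pool.Agent.Results.MP_e7ed3f_nt.Upper
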